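import Pool.Agent.Helper13.TWR.LZ

/-! Row POW of the sheet TW. -/

set_option linter.unusedSectionVars false

open MeasureTheory Filter Topology Finset
open scoped ComplexConjugate

namespace Pool.Agent.Helper13.TWR

open Pool.Agent.Helper98.TW
open Pool.Agent.Helper16.AZ (T mm)
open UnitAddTorus (mFourier)

section
variable {Ω : Type} [m0 : MeasurableSpace Ω] {μ : Measure Ω} {𝒜 : SA Ω} {R R' : Ω → Ω}
  {ψ : Ω → ℂ}

/-- increments of powers of the transformation -/
theorem inc_iterate (hA : IA μ 𝒜 R R') (hS : Sys μ R R') (hψ : UF μ ψ) (hi : Inc μ 𝒜 R ψ)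
    (n : ℕ) : Inc μ 𝒜 R^[n] ψ := by
  induction n with
  | zero =>
    refine am_congr (am_const (1 : ℂ)) ?_
    filter_upwards [hψ.mul_conj] with x hx
    exact hx.symm
  | succ n ih =>
    have h1 := ((hA.iterate n).2 _ hi).1
    refine am_congr (am_mul h1 ih) ?_
    filter_upwards [ae_comp (hS.iterate n).mp hψ.mul_conj] with x hx
    rw [Function.iterate_succ_apply']
    linear_combination (ψ (R (R^[n] x)) * conj (ψ x)) * hx

/-- the product of the increments along an orbit -/
theorem prod_inc (hS : Sys μ R R') (hψ : UF μ ψ) (n : ℕ) :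
    ∀ᵐ x ∂μ, ∏ j ∈ range n, (ψ (R (R^[j] x)) * conj (ψ (R^[j] x))) =
      ψ (R^[n] x) * conj (ψ x) := by
  induction n with
  | zero =>
    filter_upwards [hψ.mul_conj] with x hx
    simpa using hx.symm
  | succ n ih =>
    filter_upwards [ih, ae_comp (hS.iterate n).mp hψ.mul_conj] with x h1 h2
    rw [prod_range_succ, h1, Function.iterate_succ_apply']
    linear_combination (ψ (R (R^[n] x)) * conj (ψ x)) * h2

theorem am_prod {ι : Type} (s : Finset ι) {F : ι → Ω → ℂ} (h : ∀ i ∈ s, AM μ 𝒜 (F i)) :
    AM μ 𝒜 (fun x => ∏ i ∈ s, F i x) := by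
  classical
  induction s using Finset.induction_on with
  | empty => simpa using am_const (μ := μ) (𝒜 := 𝒜) 1
  | insert a s ha ih =>
    have := am_mul (h a (Finset.mem_insert_self a s))
      (ih fun i hi => h i (Finset.mem_insert_of_mem hi))
    refine am_congr this (Filter.Eventually.of_forall fun x => ?_)
    simp [Finset.prod_insert ha]

end

section torus
variable {N : ℕ} {lev : Fin N → ℕ} {f : Fin N → T N → U}

theorem ex_eq (a : Fin N → ℤ) (x : T N) : ex a x = ∏ i, fourier (a i) (x i) := rfl

theorem norm_ex (a : Fin N → ℤ) (x : T N) : ‖ex a x‖ = 1 := by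
  rw [ex_eq, norm_prod]
  refine prod_eq_one fun i _ => ?_
  rw [fourier_apply]
  exact Circle.norm_coe _

theorem ex_mul_conj (a : Fin N → ℤ) (x : T N) : ex a x * conj (ex a x) = 1 := by
  rw [Complex.mul_conj, Complex.normSq_eq_norm_sq, norm_ex]; norm_num

theorem meas_ex (a : Fin N → ℤ) : Measurable (ex a) := (mFourier a).continuous.measurable

theorem uf_ex (a : Fin N → ℤ) : UF (mm N) (ex a) :=
  ⟨meas_ex a, ae_of_all _ (norm_ex a)⟩

theorem ex_npow (a : Fin N → ℤ) (m : ℕ) (x : T N) : ex a x ^ m = ex (m • a) x := by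
  rw [ex_eq, ex_eq, ← prod_pow]
  refine prod_congr rfl fun i _ => ?_
  rw [fourier_apply, fourier_apply, Pi.smul_apply, nsmul_eq_mul, mul_smul, natCast_zsmul,
    AddCircle.toCircle_nsmul, Circle.coe_pow]

theorem ex_SS (a : Fin N → ℤ) (x : T N) :
    ex a (SS f x) = ex a x * ∏ i, fourier (a i) (f i x) := by
  rw [ex_eq, ex_eq, ← prod_mul_distrib]
  refine prod_congr rfl fun i _ => ?_
  rw [SS, fourier_apply, fourier_apply, fourier_apply, smul_add, AddCircle.toCircle_add,
    Circle.coe_mul]

/-- a measurable function which depends only on the coordinates of the levels `< l` -/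
theorem am_tr {F : T N → ℂ} {l : ℕ} (hF : Measurable F) (h : ∀ x, F (tr lev l x) = F x) :
    AM (mm N) (AL lev l) F := by
  apply am_of
  have : F = F ∘ tr lev l := by ext x; exact (h x).symm
  rw [this]
  exact hF.comp (comap_measurable (tr lev l))

/-- characters of level `l` have increments in the levels `< l` -/
theorem inc_ex (hf : Tow lev f) {l : ℕ} {a : Fin N → ℤ} (ha : la lev l a) :
    Inc (mm N) (AL lev l) (SS f) (ex a) := by
  have h1 : (fun x => ex a (SS f x) * conj (ex a x)) = fun x => ∏ i, fourier (a i) (f i x) := by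
    ext x
    rw [ex_SS]
    linear_combination (∏ i, (fourier (a i) (f i x) : ℂ)) * ex_mul_conj a x
  unfold Inc
  rw [h1]
  refine am_tr ?_ ?_
  · exact Finset.measurable_prod _ fun i _ =>
      (fourier (a i)).continuous.measurable.comp (hf.meas i)
  · intro x
    refine prod_congr rfl fun i _ => ?_
    by_cases h0 : a i = 0
    · simp [h0]
    · have h2 : lev i = l := ha i h0
      rw [← hf.dep i (tr lev l x), ← hf.dep i x, ← h2]
      congr 2
      ext k
      by_cases hk : lev k < lev i <;> simp [tr, hk]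

end torus

/-- a nontrivial character of level `l` is not measurable for the levels below -/
theorem ex_not_am (hchz : ST_CHZ) (hals : ST_ALS) {N : ℕ} {lev : Fin N → ℕ} {l : ℕ}
    {a : Fin N → ℤ} (ha0 : a ≠ 0) (ha : la lev l a) : ¬ AM (mm N) (AL lev l) (ex a) := by
  intro h
  have hle : @LE.le (MeasurableSpace (T N)) _ (AL lev l) inferInstance := (hals N lev).2.2.1 l
  have hi : Integrable (fun x : T N => conj (ex a x)) (mm N) := uf_int (uf_ex a).conj
  have h1 := hchz N lev l a ha0 ha (fun x => conj (ex a x)) hi (am_conj h)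
  have : IsFiniteMeasure ((mm N).trim hle) := isFiniteMeasure_trim hle
  have : SigmaFinite ((mm N).trim hle) := IsFiniteMeasure.toSigmaFinite _
  have h2 : (fun x : T N => ex a x * conj (ex a x)) = fun _ => (1 : ℂ) := by
    ext x; exact ex_mul_conj a x
  rw [h2, condExp_const hle] at h1
  obtain ⟨x, hx⟩ := h1.exists
  simp at hx

theorem st_POW (hmps : ST_MPS) (hial : ST_IAL) (hals : ST_ALS) (hchz : ST_CHZ) (hlt : ST_LT) :
    ST_POW := by
  intro N lev f f' hT _ hNU hEG m hm l a ha0 ha g hg hgm hinc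
  have hS : Sys (mm N) (SS f) (SS f') := by simpa using hmps N lev f f' hT 1
  have hSm : Sys (mm N) (SS f)^[m] (SS f')^[m] := hmps N lev f f' hT m
  have hI : ∀ k, IA (mm N) (AL lev k) (SS f) (SS f') := fun k => by
    simpa using hial N lev f f' hT k 1
  have hIm : ∀ k, IA (mm N) (AL lev k) (SS f)^[m] (SS f')^[m] := fun k => hial N lev f f' hT k m
  obtain ⟨-, hAs, hAl, hAq, -, hAg, -⟩ := hals N lev
  set ψ : T N → ℂ := fun x => ex a x * g x with hψd
  have hψ : UF (mm N) ψ := (uf_ex a).mul hg
  -- the increments under `S`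
  set φ : T N → ℂ := fun x => ψ (SS f x) * conj (ψ x) with hφd
  have hφ : UF (mm N) φ := (hψ.comp hS.mp).mul hψ.conj
  have hφA : AM (mm N) (AL lev (l + 1)) φ := by
    have h1 := inc_ex hT.t ha
    have h2 : Inc (mm N) (AL lev (l + 1)) (SS f) g := inc_of_am (hI (l + 1)) hgm
    exact Inc.mul h1 h2
  set b : T N → ℂ := fun x => ψ ((SS f)^[m] x) * conj (ψ x) with hbd
  have hb : AM (mm N) (AL lev l) b := hinc
  have hφi : Inc (mm N) (AL lev l) (SS f)^[m] φ := by
    have h1 := ((hI l).2 _ hb).1
    refine am_congr (am_mul h1 (am_conj hb)) (ae_of_all _ fun x => ?_)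
    simp only [hbd, hφd, map_mul, Complex.conj_conj]
    have h2 : (SS f)^[m] (SS f x) = SS f ((SS f)^[m] x) := by
      rw [← Function.iterate_succ_apply, Function.iterate_succ_apply']
    rw [h2]; ring
  have hchi : ∀ χ ∈ CH lev l, Inc (mm N) (AL lev l) (SS f)^[m] χ := by
    rintro χ ⟨c, hc, rfl⟩
    exact inc_iterate (hI l) hS (uf_ex c) (inc_ex hT.t hc) m
  obtain ⟨χ, ⟨c, hc, rfl⟩, hu⟩ := hlt (T N) (mm N) (SS f)^[m] (SS f')^[m] (AL lev l) (CH lev l) φ
    hSm (hEG m hm).1 (hIm l) (hAg l) hchi hφ (by rw [← hAs l]; exact hφA) hφi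
  -- the product along an orbit of length `m`
  have hprod := prod_inc hS hψ m
  have hprodc : ∀ j : ℕ, AM (mm N) (AL lev l)
      (fun x => ex c ((SS f)^[j] x) * conj (ex c x)) := fun j =>
    inc_iterate (hI l) hS (uf_ex c) (inc_ex hT.t hc) j
  have hum : ∀ j : ℕ, AM (mm N) (AL lev l)
      (fun x => φ ((SS f)^[j] x) * conj (ex c ((SS f)^[j] x))) := fun j =>
    (((hI l).iterate j).2 _ hu).1
  have hexm : AM (mm N) (AL lev l) (fun x => ex (m • c) x) := by
    have h1 : AM (mm N) (AL lev l) (fun x => conj (b x) *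
        ∏ j ∈ range m, ((φ ((SS f)^[j] x) * conj (ex c ((SS f)^[j] x))) *
          (ex c ((SS f)^[j] x) * conj (ex c x)))) :=
      am_mul (am_conj hb) (am_prod _ fun j _ => am_mul (hum j) (hprodc j))
    refine am_congr (am_conj h1) ?_
    filter_upwards [hprod, (show UF (mm N) b from (hψ.comp hSm.mp).mul hψ.conj).mul_conj]
      with x e1 e2
    have e3 : ∏ j ∈ range m, ((φ ((SS f)^[j] x) * conj (ex c ((SS f)^[j] x))) *
          (ex c ((SS f)^[j] x) * conj (ex c x))) = b x * conj (ex c x) ^ m := by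
      have e4 : ∀ j ∈ range m, ((φ ((SS f)^[j] x) * conj (ex c ((SS f)^[j] x))) *
          (ex c ((SS f)^[j] x) * conj (ex c x))) =
          (ψ (SS f ((SS f)^[j] x)) * conj (ψ ((SS f)^[j] x))) * conj (ex c x) := by
        intro j _
        have := ex_mul_conj c ((SS f)^[j] x)
        simp only [hφd]
        linear_combination (ψ (SS f ((SS f)^[j] x)) * conj (ψ ((SS f)^[j] x)) * conj (ex c x))
          * this
      rw [prod_congr rfl e4, prod_mul_distrib, e1]
      simp [hbd]
    rw [e3, ← ex_npow]
    simp only [map_mul, map_pow, Complex.conj_conj]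
    have e5 : conj (b x) * b x = 1 := by rw [mul_comm]; exact e2
    linear_combination (ex c x ^ m) * e2
  by_cases hc0 : c = 0
  · -- `φ` is measurable for the levels `< l`
    refine hNU l a ha0 ha g hg hgm ?_
    have h1 : AM (mm N) (AL lev l) φ := by
      refine am_congr hu (ae_of_all _ fun x => ?_)
      have h2 : ex c x = 1 := by rw [hc0, ex_eq]; simp
      show φ x * conj (ex c x) = φ x
      rw [h2]; simp
    exact h1
  · refine ex_not_am hchz hals (a := m • c) ?_ ?_ hexm
    · intro h
      apply hc0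
      ext i
      have := congrFun h i
      simp only [Pi.smul_apply, nsmul_eq_mul, Pi.zero_apply, mul_eq_zero] at this
      rcases this with h1 | h1
      · exfalso
        have : m = 0 := by exact_mod_cast h1
        omega
      · exact h1
    · intro i hi
      apply hc i
      intro h0
      apply hi
      simp [h0]

end Pool.Agent.Helper13.TWR
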