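import Pool.Agent.Helper13.TWR.LZ

/-! Rows CT, GL of the sheet TW. -/

set_option linter.unusedSectionVars false

open MeasureTheory Filter Topology Finset
open scoped ComplexConjugate

namespace Pool.Agent.Helper13.TWR

open Pool.Agent.Helper98.TW
open Pool.Agent.Helper16.AZ (T mm)

/-- `‖a - b‖² = 2 - 2 Re (a conj b)` for unimodular numbers -/
theorem norm_sub_uni {a b : ℂ} (ha : ‖a‖ = 1) (hb : ‖b‖ = 1) :
    ‖a - b‖ ^ 2 = 2 - 2 * (a * conj b).re := by
  have h1 := Complex.normSq_sub a b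
  rw [Complex.normSq_eq_norm_sq, Complex.normSq_eq_norm_sq, Complex.normSq_eq_norm_sq, ha, hb] at h1
  rw [h1]; ring

theorem st_CT (h1 : ST_LZ) : ST_CT := by
  intro Ω m0 μ _ R R' 𝒟 d V ψ hS hE hI hV hVI hψ hi hc t
  have hVψ : ∀ t, UF μ (fun x => ψ (V t x)) := fun t => hψ.comp (hV.mp t)
  have hχ : ∀ t, UF μ (fun x => ψ (V t x) * conj (ψ x)) := fun t => (hVψ t).mul hψ.conj
  let H : AddSubgroup (T d) :=
    { carrier := {t | AM μ 𝒟 (fun x => ψ (V t x) * conj (ψ x))}
      zero_mem' := by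
        refine am_congr (am_const (1 : ℂ)) ?_
        filter_upwards [hψ.mul_conj] with x hx
        rw [hV.zero]
        exact hx.symm
      add_mem' := by
        intro s t hs ht
        simp only [Set.mem_ofPred_eq] at hs ht ⊢
        have h2 := ((hVI t).2 _ hs).1
        refine am_congr (am_mul h2 ht) ?_
        filter_upwards [(hVψ t).mul_conj] with x hx
        simp only [hV.add]
        linear_combination (ψ (V s (V t x)) * conj (ψ x)) * hx
      neg_mem' := by
        intro t ht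
        simp only [Set.mem_ofPred_eq] at ht ⊢
        have h2 := am_conj ((hVI t).2 _ ht).2
        refine am_congr h2 ?_
        filter_upwards with x
        have h3 : V t (V (-t) x) = x := by rw [← hV.add, add_neg_cancel, hV.zero]
        simp only [h3, map_mul, Complex.conj_conj]
        ring }
  have hev : ∀ᶠ t in 𝓝 (0 : T d), t ∈ H := by
    have h2 : ∀ᶠ t in 𝓝 (0 : T d), ∫ x, ‖ψ (V t x) - ψ x‖ ^ 2 ∂μ < 2 :=
      hc.eventually_lt_const (by norm_num)
    filter_upwards [h2] with t ht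
    rcases h1 Ω μ R R' 𝒟 _ hS hE hI (hχ t) (hi t) with h | h
    · exfalso
      have hle : @LE.le (MeasurableSpace Ω) _ 𝒟 m0 := hI.1
      have : IsFiniteMeasure (μ.trim hle) := isFiniteMeasure_trim hle
      have : SigmaFinite (μ.trim hle) := IsFiniteMeasure.toSigmaFinite _
      have h3 : ∫ x, ψ (V t x) * conj (ψ x) ∂μ = 0 := by
        have h8 := integral_condExp (μ := μ) (f := fun x => ψ (V t x) * conj (ψ x)) hle
        rw [← h8, integral_congr_ae h]; simp
      have h4 : ∫ x, ‖ψ (V t x) - ψ x‖ ^ 2 ∂μ = 2 := by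
        have h5 : ∫ x, ‖ψ (V t x) - ψ x‖ ^ 2 ∂μ =
            ∫ x, (2 - 2 * (ψ (V t x) * conj (ψ x)).re) ∂μ := by
          refine integral_congr_ae ?_
          filter_upwards [(hVψ t).2, hψ.2] with x e1 e2
          exact norm_sub_uni e1 e2
        have h6 : ∫ x, (ψ (V t x) * conj (ψ x)).re ∂μ = 0 := by
          have := integral_re (uf_int (hχ t)) (𝕜 := ℂ)
          simp only [RCLike.re_eq_complex_re] at this
          rw [this, h3]; simp
        have h7 : Integrable (fun x => (ψ (V t x) * conj (ψ x)).re) μ := (uf_int (hχ t)).re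
        rw [h5, integral_sub (integrable_const _) (h7.const_mul _), integral_const_mul, h6]
        simp
      linarith
    · exact h
  have hopen : IsOpen (H : Set (T d)) := AddSubgroup.isOpen_of_mem_nhds H (g := 0) hev
  have huniv : (H : Set (T d)) = Set.univ :=
    IsClopen.eq_univ ⟨H.isClosed_of_isOpen hopen, hopen⟩ ⟨0, H.zero_mem⟩
  have : t ∈ (H : Set (T d)) := by rw [huniv]; trivial
  exact this

theorem st_GL (hcec : ST_CEC) (hdns : ST_DNS) : ST_GL := by
  intro Ω m0 μ _ 𝒟 d V Φ ψ hD hV hVI hΦ hΦc hΦV hψ hψM hψV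
  classical
  obtain ⟨φ, hφ⟩ := hΦc.exists_eq_range ⟨_, hΦ.one⟩
  have hφm : ∀ n, φ n ∈ Φ := fun n => by rw [hφ]; exact ⟨n, rfl⟩
  have hVS : ∀ t, Sys μ (V t) (V (-t)) := fun t =>
    ⟨hV.mp t, hV.mp (-t), ae_of_all _ fun x => by rw [← hV.add, neg_add_cancel, hV.zero],
      ae_of_all _ fun x => by rw [← hV.add, add_neg_cancel, hV.zero]⟩
  set g : ℕ → Ω → ℂ := fun n => μ[fun x => ψ x * conj (φ n x)|𝒟] with hg
  have hgm : ∀ n, StronglyMeasurable[𝒟] (g n) := fun n => stronglyMeasurable_condExp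
  have hψφ : ∀ n, UF μ (fun x => ψ x * conj (φ n x)) := fun n => hψ.mul (hΦ.uf _ (hφm n)).conj
  have hVψ : ∀ t, UF μ (fun x => ψ (V t x)) := fun t => hψ.comp (hV.mp t)
  -- `g` transforms like `ψ`
  have hgV : ∀ t n, ∀ᵐ x ∂μ, g n (V t x) = (ψ (V t x) * conj (ψ x)) * g n x := by
    intro t n
    have h1 := hcec Ω μ (V t) (V (-t)) 𝒟 _ (hVS t) (hVI t) (uf_int (hψφ n))
    have h2 : μ[fun x => ψ (V t x) * conj (φ n (V t x))|𝒟] =ᵐ[μ]
        μ[fun x => (ψ (V t x) * conj (ψ x)) * (ψ x * conj (φ n x))|𝒟] := by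
      refine condExp_congr_ae ?_
      filter_upwards [hΦV _ (hφm n) t, hψ.mul_conj] with x h3 h5
      simp only [h3]
      linear_combination (-ψ (V t x) * conj (φ n x)) * h5
    have h3 := pull13 (hψV t) (g := fun x => ψ x * conj (φ n x))
      (uf_int (((hVψ t).mul hψ.conj).mul (hψφ n))) (uf_int (hψφ n))
    filter_upwards [h1, h2, h3] with x e1 e2 e3
    exact e1.symm.trans (e2.trans e3)
  -- almost everywhere some `g n` does not vanish
  have hae : ∀ᵐ x ∂μ, ∃ n, g n x ≠ 0 := by
    set Z : Set Ω := {x | ∀ n, g n x = 0} with hZ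
    have hZm : MeasurableSet[𝒟] Z := by
      have : Z = ⋂ n, (g n) ⁻¹' {0} := by ext x; simp [hZ]
      rw [this]
      exact MeasurableSet.iInter fun n => (hgm n).measurable (measurableSet_singleton 0)
    have hZm' : MeasurableSet Z := hD _ hZm
    have hZa : AM μ 𝒟 (Z.indicator fun _ => (1 : ℂ)) :=
      am_of ((@measurable_const _ _ _ 𝒟 (1 : ℂ)).indicator hZm)
    have hmul : ∀ x, Z.indicator ψ x = Z.indicator (fun _ => (1 : ℂ)) x * ψ x := by
      intro x
      by_cases hx : x ∈ Z <;> simp [hx]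
    have h1 : Z.indicator ψ =ᵐ[μ] 0 := by
      refine hdns Ω μ 𝒟 Φ (Z.indicator ψ) hD hΦ ((uf_int hψ).indicator hZm') ?_ ?_
      · refine am_congr (am_mul (am_jo_left hZa) hψM) (ae_of_all _ fun x => (hmul x).symm)
      · intro φ' hφ'
        rw [hφ] at hφ'
        obtain ⟨n, rfl⟩ := hφ'
        have h2 := pull13 hZa (g := fun x => ψ x * conj (φ n x)) (by
          refine ((uf_int (hψφ n)).indicator hZm').congr (ae_of_all _ fun x => ?_)
          by_cases hx : x ∈ Z <;> simp [hx]) (uf_int (hψφ n))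
        have h3 : μ[fun x => Z.indicator ψ x * conj (φ n x)|𝒟] =ᵐ[μ]
            μ[fun x => Z.indicator (fun _ => (1 : ℂ)) x * (ψ x * conj (φ n x))|𝒟] := by
          refine condExp_congr_ae (ae_of_all _ fun x => ?_)
          simp only [hmul]; ring
        filter_upwards [h2, h3] with x e2 e3
        rw [e3, e2]
        by_cases hx : x ∈ Z
        · have : g n x = 0 := hx n
          simp only [hg] at this
          rw [this]; simp
        · simp [hx]
    filter_upwards [h1, hψ.2] with x h2 h3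
    by_contra h4
    push Not at h4
    have h5 : x ∈ Z := h4
    rw [Set.indicator_of_mem h5] at h2
    rw [h2] at h3; simp at h3
  have hex : ∀ x, ∃ n, g n x ≠ 0 ∨ ∀ k, g k x = 0 := by
    intro x
    by_cases h : ∀ k, g k x = 0
    · exact ⟨0, Or.inr h⟩
    · push Not at h
      obtain ⟨n, hn⟩ := h
      exact ⟨n, Or.inl hn⟩
  let f : ℕ → Ω → ℂ := fun n x => if g n x = 0 then 1 else g n x / (‖g n x‖ : ℂ)
  have hfm : ∀ n, Measurable[𝒟] (f n) := by
    intro n
    refine Measurable.ite ?_ measurable_const ?_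
    · exact (hgm n).measurable (measurableSet_singleton 0)
    · exact (hgm n).measurable.div ((Complex.continuous_ofReal.comp continuous_norm).measurable.comp
        (hgm n).measurable)
  let w : Ω → ℂ := fun x => f (Nat.find (hex x)) x
  have hw : Measurable[𝒟] w := by
    refine @Measurable.find Ω ℂ _ 𝒟 f (fun n x => g n x ≠ 0 ∨ ∀ k, g k x = 0) _ hfm
      (fun n => ?_) hex
    have h0 : ∀ k, MeasurableSet[𝒟] {x | g k x = 0} := fun k =>
      (hgm k).measurable (measurableSet_singleton 0)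
    have : {x | g n x ≠ 0 ∨ ∀ k, g k x = 0} = {x | g n x = 0}ᶜ ∪ ⋂ k, {x | g k x = 0} := by
      ext x; simp
    rw [this]
    exact (h0 n).compl.union (MeasurableSet.iInter h0)
  have hw1 : ∀ x, ‖w x‖ = 1 := by
    intro x
    simp only [w, f]
    split_ifs with h
    · simp
    · rw [norm_div, Complex.norm_real, norm_norm]
      exact div_self (norm_ne_zero_iff.2 h)
  refine ⟨w, ⟨hw.mono hD le_rfl, ae_of_all _ hw1⟩, am_of hw, fun t => ?_⟩
  have h1 : ∀ᵐ x ∂μ, ∀ n, g n (V t x) = (ψ (V t x) * conj (ψ x)) * g n x :=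
    ae_all_iff.2 fun n => hgV t n
  filter_upwards [h1, hae, hψ.2, (hVψ t).2, (hVψ t).mul_conj] with x h2 h3 h4 h5 h7
  have hχ : ‖ψ (V t x) * conj (ψ x)‖ = 1 := by
    rw [norm_mul, RCLike.norm_conj, h4, h5, mul_one]
  have hχ0 : ψ (V t x) * conj (ψ x) ≠ 0 := by
    intro h; rw [h] at hχ; simp at hχ
  have hz : ∀ n, g n (V t x) = 0 ↔ g n x = 0 := by
    intro n
    rw [h2 n, mul_eq_zero, or_iff_right hχ0]
  have hfind : Nat.find (hex (V t x)) = Nat.find (hex x) := by
    refine Nat.find_congr' fun {n} => ?_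
    rw [ne_eq, ne_eq, hz n]
    simp only [hz]
  have hne : g (Nat.find (hex x)) x ≠ 0 := by
    rcases Nat.find_spec (hex x) with h | h
    · exact h
    · obtain ⟨n, hn⟩ := h3
      exact absurd (h n) hn
  have hwx : w x = g (Nat.find (hex x)) x / (‖g (Nat.find (hex x)) x‖ : ℂ) := by
    simp only [w, f, if_neg hne]
  have hwV : w (V t x) = (ψ (V t x) * conj (ψ x)) * w x := by
    have hne' : g (Nat.find (hex x)) (V t x) ≠ 0 := fun h => hne ((hz _).1 h)
    rw [hwx]
    simp only [w, f, hfind, if_neg hne']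
    rw [h2, norm_mul, hχ, one_mul]; ring
  rw [hwV]
  simp only [map_mul, Complex.conj_conj]
  linear_combination (ψ x * conj (w x)) * h7

end Pool.Agent.Helper13.TWR
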