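import Mathlib

/-! General lemmas on invariant σ-algebras of an ergodic system (towers, MP_7a8f48_an). -/

open MeasureTheory Filter
open scoped ComplexConjugate ENNReal Topology

namespace Pool.Agent.Helper13.TWR

section
variable {Ω : Type*} {m mΩ : MeasurableSpace Ω} {μ : Measure Ω} [IsProbabilityMeasure μ]

theorem meas_of_comap {T : Ω → Ω} (hTm : MeasurableSpace.comap T m = m) :
    @Measurable Ω Ω m m T := by
  intro s hs
  rw [← hTm]
  exact ⟨s, hs, rfl⟩

/-- Conditional expectations on an invariant σ-algebra commute with `T`. -/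
theorem condExp_comp {E : Type*} [NormedAddCommGroup E] [NormedSpace ℝ E] [CompleteSpace E]
    (hm : m ≤ mΩ) {T : Ω → Ω} (hT : MeasurePreserving T μ μ)
    (hTm : MeasurableSpace.comap T m = m) {f : Ω → E} (hf : Integrable f μ) :
    μ[f ∘ T | m] =ᵐ[μ] (μ[f | m]) ∘ T := by
  have hfT : Integrable (f ∘ T) μ := hT.integrable_comp_of_integrable hf
  have hg : Integrable ((μ[f | m]) ∘ T) μ := hT.integrable_comp_of_integrable integrable_condExp
  refine (ae_eq_condExp_of_forall_setIntegral_eq hm hfT (fun s _ _ => hg.integrableOn) ?_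
    ?_).symm
  · intro s hs _
    rw [← hTm] at hs
    obtain ⟨t, ht, rfl⟩ := hs
    have ht' : MeasurableSet t := hm t ht
    have h1 : ∀ g : Ω → E, Integrable g μ → ∫ x in T ⁻¹' t, (g ∘ T) x ∂μ = ∫ x in t, g x ∂μ := by
      intro g hgi
      rw [← integral_indicator (hT.measurable ht'), ← integral_indicator ht']
      have : (T ⁻¹' t).indicator (g ∘ T) = (t.indicator g) ∘ T := by
        ext x; exact Set.indicator_comp_right T
      rw [this]
      have h2 := integral_map (μ := μ) (φ := T) hT.measurable.aemeasurable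
        (f := t.indicator g) (by
          rw [hT.map_eq]; exact (hgi.indicator ht').aestronglyMeasurable)
      rw [hT.map_eq] at h2
      exact h2.symm
    rw [h1 _ integrable_condExp, h1 _ hf]
    exact setIntegral_condExp hm hf ht
  · exact (stronglyMeasurable_condExp.comp_measurable (meas_of_comap hTm)).aestronglyMeasurable

omit [IsProbabilityMeasure μ] in
/-- pull-out property, complex valued -/
theorem ce_mul {f g : Ω → ℂ} (hf : AEStronglyMeasurable[m] f μ)
    (hfg : Integrable (fun x => f x * g x) μ) (hg : Integrable g μ) :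
    μ[fun x => f x * g x | m] =ᵐ[μ] fun x => f x * (μ[g | m]) x :=
  condExp_bilin_of_aestronglyMeasurable_left (ContinuousLinearMap.mul ℝ ℂ) hf hfg hg

/-- Lemma L0: a unimodular function with increments in `m` is orthogonal to `m` or lies in `m`. -/
theorem L0 (hm : m ≤ mΩ) {T : Ω → Ω} (hT : Ergodic T μ)
    (hTm : MeasurableSpace.comap T m = m) {ψ b : Ω → ℂ} (hψ : AEStronglyMeasurable ψ μ)
    (hu : ∀ᵐ x ∂μ, ‖ψ x‖ = 1) (hb : AEStronglyMeasurable[m] b μ)
    (hinc : ∀ᵐ x ∂μ, ψ (T x) = b x * ψ x) :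
    μ[ψ | m] =ᵐ[μ] 0 ∨ AEStronglyMeasurable[m] ψ μ := by
  have hmp := hT.toMeasurePreserving
  have hψi : Integrable ψ μ := by
    refine Integrable.mono' (integrable_const (1 : ℝ)) hψ ?_
    filter_upwards [hu] with x hx; exact hx.le
  have hψTi : Integrable (ψ ∘ T) μ := hmp.integrable_comp_of_integrable hψi
  set E : Ω → ℂ := μ[ψ | m] with hE
  have hEi : Integrable E μ := integrable_condExp
  have hEm : AEStronglyMeasurable[m] E μ := stronglyMeasurable_condExp.aestronglyMeasurable
  have hb1 : ∀ᵐ x ∂μ, ‖b x‖ = 1 := by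
    have := hmp.quasiMeasurePreserving.ae hu
    filter_upwards [hinc, hu, this] with x h1 h2 h3
    rw [h1, norm_mul, h2, mul_one] at h3
    exact h3
  have hET : ∀ᵐ x ∂μ, E (T x) = b x * E x := by
    have h1 := condExp_comp hm hmp hTm hψi
    have h2 : μ[ψ ∘ T | m] =ᵐ[μ] μ[fun x => b x * ψ x | m] := condExp_congr_ae (by
      filter_upwards [hinc] with x hx; simpa using hx)
    have h3 : μ[fun x => b x * ψ x | m] =ᵐ[μ] fun x => b x * E x := by
      refine ce_mul hb ?_ hψi
      refine hψTi.congr ?_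
      filter_upwards [hinc] with x hx; simpa using hx
    filter_upwards [h1, h2, h3] with x e1 e2 e3
    rw [e2, e3] at e1
    simpa using e1.symm
  -- the modulus is constant
  have hnorm : (fun x => ‖E x‖) ∘ T =ᵐ[μ] fun x => ‖E x‖ := by
    filter_upwards [hET, hb1] with x e1 e2
    simp [e1, e2]
  obtain ⟨c, hc⟩ := hT.ae_eq_const_of_ae_eq_comp_ae
    (g := fun x => ‖E x‖) hEi.norm.aestronglyMeasurable hnorm
  have hc' : ∀ᵐ x ∂μ, ‖E x‖ = c := by filter_upwards [hc] with x hx; simpa using hx
  by_cases hc0 : c = 0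
  · left
    filter_upwards [hc'] with x hx
    rw [hc0] at hx
    simpa using hx
  right
  have hinv : (fun x => ψ x * conj (E x)) ∘ T =ᵐ[μ] fun x => ψ x * conj (E x) := by
    filter_upwards [hinc, hET, hb1] with x e1 e2 e3
    simp only [Function.comp, e1, e2, map_mul]
    have : b x * conj (b x) = 1 := by
      rw [Complex.mul_conj, Complex.normSq_eq_norm_sq, e3]; norm_num
    linear_combination (ψ x * conj (E x)) * this
  obtain ⟨k, hk⟩ := hT.ae_eq_const_of_ae_eq_comp_ae
    (g := fun x => ψ x * conj (E x))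
    (hψ.mul (Complex.continuous_conj.comp_aestronglyMeasurable hEi.aestronglyMeasurable)) hinv
  have hk' : ∀ᵐ x ∂μ, ψ x * conj (E x) = k := by filter_upwards [hk] with x hx; simpa using hx
  have h5 : (fun x => (k / (c : ℂ) ^ 2) * E x) =ᵐ[μ] ψ := by
    filter_upwards [hk', hc'] with x e1 e2
    have h6 : conj (E x) * E x = (c : ℂ) ^ 2 := by
      rw [mul_comm, Complex.mul_conj, Complex.normSq_eq_norm_sq, e2]; push_cast; ring
    have hcc : (c : ℂ) ^ 2 ≠ 0 := pow_ne_zero 2 (by exact_mod_cast hc0)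
    have h7 : k * E x = ψ x * (c : ℂ) ^ 2 := by rw [← e1, ← h6]; ring
    calc k / (c : ℂ) ^ 2 * E x = (k * E x) / (c : ℂ) ^ 2 := by ring
      _ = ψ x := by rw [h7]; exact mul_div_cancel_right₀ _ hcc
  exact (hEm.const_mul _).congr h5

end

end Pool.Agent.Helper13.TWR
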