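import Pool.Agent.Helper13.TWR.Gen

/-! Lemmas L1, L2 on the σ-algebra generated by `m` and a group of unimodular functions. -/

open MeasureTheory Filter
open scoped ComplexConjugate ENNReal Topology

namespace Pool.Agent.Helper13.TWR

/-- a group of measurable unimodular functions -/
structure UG {Ω : Type*} [MeasurableSpace Ω] (Φ : Set (Ω → ℂ)) : Prop where
  meas : ∀ φ ∈ Φ, Measurable φ
  uni : ∀ φ ∈ Φ, ∀ x, ‖φ x‖ = 1
  one : (fun _ => (1 : ℂ)) ∈ Φ
  mul : ∀ φ ∈ Φ, ∀ ψ ∈ Φ, (fun x => φ x * ψ x) ∈ Φ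
  inv : ∀ φ ∈ Φ, (fun x => conj (φ x)) ∈ Φ

theorem UG.pow {Ω : Type*} [MeasurableSpace Ω] {Φ : Set (Ω → ℂ)} (h : UG Φ) {φ : Ω → ℂ}
    (hφ : φ ∈ Φ) (n : ℕ) : (fun x => φ x ^ n) ∈ Φ := by
  induction n with
  | zero => simpa using h.one
  | succ n ih => simpa [pow_succ] using h.mul _ ih _ hφ

theorem UG.zpow {Ω : Type*} [MeasurableSpace Ω] {Φ : Set (Ω → ℂ)} (h : UG Φ) {φ : Ω → ℂ}
    (hφ : φ ∈ Φ) (n : ℤ) : (fun x => φ x ^ n) ∈ Φ := by
  obtain ⟨k, rfl | rfl⟩ := n.eq_nat_or_neg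
  · simpa using h.pow hφ k
  · have := h.pow (h.inv _ hφ) k
    convert this using 2 with x
    have h1 : (φ x)⁻¹ = conj (φ x) := by
      refine inv_eq_of_mul_eq_one_right ?_
      rw [Complex.mul_conj, Complex.normSq_eq_norm_sq, h.uni _ hφ x]; norm_num
    rw [zpow_neg, zpow_natCast, ← inv_pow, h1]

set_option linter.unusedSectionVars false

section
variable {Ω : Type*} {m mΩ : MeasurableSpace Ω} {μ : Measure Ω} [IsProbabilityMeasure μ]

/-- bounded functions which are orthogonal together with all their products -/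
structure Good (m : MeasurableSpace Ω) {mΩ : MeasurableSpace Ω} (μ : Measure Ω)
    (Φ : Set (Ω → ℂ)) (f : Ω → ℂ) (h : Ω → ℂ) : Prop where
  meas : Measurable h
  bdd : ∃ C : ℝ, ∀ x, ‖h x‖ ≤ C
  orth : ∀ φ ∈ Φ, ∀ s, MeasurableSet[m] s → ∫ x in s, f x * h x * φ x ∂μ = 0

omit [IsProbabilityMeasure μ] in
theorem int_bdd {f g : Ω → ℂ} (hf : Integrable f μ) (hg : Measurable g) {C : ℝ}
    (hC : ∀ x, ‖g x‖ ≤ C) : Integrable (fun x => f x * g x) μ := by
  refine (hf.norm.mul_const C).mono' (hf.aestronglyMeasurable.mul hg.aestronglyMeasurable) ?_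
  filter_upwards with x
  rw [norm_mul]
  exact mul_le_mul_of_nonneg_left (hC x) (norm_nonneg _)

theorem Good.int {Φ : Set (Ω → ℂ)} (hΦ : UG Φ) {f h : Ω → ℂ} (hf : Integrable f μ)
    (hh : Good m μ Φ f h) {φ : Ω → ℂ} (hφ : φ ∈ Φ) :
    Integrable (fun x => f x * h x * φ x) μ := by
  obtain ⟨C, hC⟩ := hh.bdd
  exact int_bdd (int_bdd hf hh.meas hC) (hΦ.meas _ hφ) (C := 1) fun x => (hΦ.uni _ hφ x).le

theorem Good.sub {Φ : Set (Ω → ℂ)} (hΦ : UG Φ) {f h k : Ω → ℂ} (hf : Integrable f μ)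
    (hh : Good m μ Φ f h) (hk : Good m μ Φ f k) : Good m μ Φ f (fun x => h x - k x) := by
  refine ⟨hh.meas.sub hk.meas, ?_, ?_⟩
  · obtain ⟨C, hC⟩ := hh.bdd
    obtain ⟨D, hD⟩ := hk.bdd
    exact ⟨C + D, fun x => (norm_sub_le _ _).trans (add_le_add (hC x) (hD x))⟩
  · intro φ hφ s hs
    have h1 : ∀ x, f x * (h x - k x) * φ x = f x * h x * φ x - f x * k x * φ x := fun x => by ring
    simp only [h1]
    rw [integral_sub ((hh.int hΦ hf hφ).integrableOn) ((hk.int hΦ hf hφ).integrableOn),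
      hh.orth φ hφ s hs, hk.orth φ hφ s hs, sub_zero]

theorem Good.sum {Φ : Set (Ω → ℂ)} (hΦ : UG Φ) {f : Ω → ℂ} (hf : Integrable f μ)
    {ι : Type*} (s : Finset ι) (h : ι → Ω → ℂ) (hh : ∀ i ∈ s, Good m μ Φ f (h i)) :
    Good m μ Φ f (fun x => ∑ i ∈ s, h i x) := by
  classical
  induction s using Finset.induction_on with
  | empty =>
    refine ⟨by simp, ⟨0, by simp⟩, ?_⟩
    intro φ hφ s hs; simp
  | insert a s ha ih =>
    have h1 := ih fun i hi => hh i (Finset.mem_insert_of_mem hi)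
    have h2 := hh a (Finset.mem_insert_self a s)
    have h0 : Good m μ Φ f (fun _ => 0) := ⟨measurable_const, ⟨0, by simp⟩, by
      intro φ hφ s hs; simp⟩
    have h3 := h2.sub hΦ hf (h0.sub hΦ hf h1)
    convert h3 using 2 with x
    rw [Finset.sum_insert ha]; ring

theorem Good.smul_phi {Φ : Set (Ω → ℂ)} (hΦ : UG Φ) {f h : Ω → ℂ} (c : ℂ)
    (hh : Good m μ Φ f h) {φ : Ω → ℂ} (hφ : φ ∈ Φ) :
    Good m μ Φ f (fun x => c * (h x * φ x)) := by
  refine ⟨(hh.meas.mul (hΦ.meas _ hφ)).const_mul c, ?_, ?_⟩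
  · obtain ⟨C, hC⟩ := hh.bdd
    refine ⟨‖c‖ * C, fun x => ?_⟩
    rw [norm_mul, norm_mul, hΦ.uni _ hφ x, mul_one]
    exact mul_le_mul_of_nonneg_left (hC x) (norm_nonneg _)
  · intro ψ hψ s hs
    have h1 := hh.orth _ (hΦ.mul _ hφ _ hψ) s hs
    have h2 : ∀ x, f x * (c * (h x * φ x)) * ψ x = c * (f x * h x * (φ x * ψ x)) :=
      fun x => by ring
    simp only [h2]
    rw [integral_const_mul, h1, mul_zero]

/-- bounded pointwise limits -/
theorem Good.lim {Φ : Set (Ω → ℂ)} (hΦ : UG Φ) {f k : Ω → ℂ} (hf : Integrable f μ)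
    (h : ℕ → Ω → ℂ) (hh : ∀ n, Good m μ Φ f (h n)) {C : ℝ} (hC : ∀ n x, ‖h n x‖ ≤ C)
    (hk : ∀ x, Tendsto (fun n => h n x) atTop (𝓝 (k x))) : Good m μ Φ f k := by
  have hkm : Measurable k := measurable_of_tendsto_metrizable (fun n => (hh n).meas)
    (tendsto_pi_nhds.2 hk)
  refine ⟨hkm, ⟨C, fun x => ?_⟩, ?_⟩
  · exact le_of_tendsto ((hk x).norm) (Eventually.of_forall fun n => hC n x)
  · intro φ hφ s hs
    have h1 : Tendsto (fun n => ∫ x in s, f x * h n x * φ x ∂μ) atTop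
        (𝓝 (∫ x in s, f x * k x * φ x ∂μ)) := by
      refine tendsto_integral_of_dominated_convergence (fun x => ‖f x‖ * C) ?_ ?_ ?_ ?_
      · intro n
        exact ((hh n).int hΦ hf hφ).aestronglyMeasurable.restrict
      · exact (hf.norm.mul_const C).integrableOn
      · intro n
        filter_upwards with x
        rw [norm_mul, norm_mul, hΦ.uni _ hφ x, mul_one]
        exact mul_le_mul_of_nonneg_left (hC n x) (norm_nonneg _)
      · filter_upwards with x
        exact ((hk x).const_mul _).mul_const _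
    have h2 : ∀ n, ∫ x in s, f x * h n x * φ x ∂μ = 0 := fun n => (hh n).orth φ hφ s hs
    simp only [h2] at h1
    exact (tendsto_nhds_unique h1 tendsto_const_nhds)

/-- multiplication with a continuous function of an element of `Φ` -/
theorem Good.cont {Φ : Set (Ω → ℂ)} (hΦ : UG Φ) {f h : Ω → ℂ} (hf : Integrable f μ)
    (hh : Good m μ Φ f h) {φ : Ω → ℂ} (hφ : φ ∈ Φ) (g : C(ℂ, ℂ)) :
    Good m μ Φ f (fun x => h x * g (φ x)) := by
  -- trigonometric approximation of `g` on the circle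
  have hap : ∀ ε : ℝ, 0 < ε → ∃ (s : Finset ℤ) (c : ℤ → ℂ), ∀ z : ℂ, ‖z‖ = 1 →
      ‖g z - ∑ n ∈ s, c n * z ^ n‖ ≤ ε := by
    intro ε hε
    let G : C(AddCircle (1 : ℝ), ℂ) := ⟨fun t => g (fourier 1 t), by fun_prop⟩
    have h1 : G ∈ (Submodule.span ℂ (Set.range (@fourier 1))).topologicalClosure := by
      rw [span_fourier_closure_eq_top]; trivial
    have h2 : G ∈ closure ((Submodule.span ℂ (Set.range (@fourier 1)) :
      Submodule ℂ C(AddCircle (1 : ℝ), ℂ)) : Set C(AddCircle (1 : ℝ), ℂ)) := h1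
    obtain ⟨P, hP, hd⟩ := Metric.mem_closure_iff.1 h2 ε hε
    obtain ⟨c, hc⟩ := (Finsupp.mem_span_range_iff_exists_finsupp).1 hP
    refine ⟨c.support, c, fun z hz => ?_⟩
    obtain ⟨t, ht⟩ : ∃ t : AddCircle (1 : ℝ), (fourier 1 t : ℂ) = z := by
      obtain ⟨θ, hθ⟩ : ∃ θ : ℝ, Complex.exp (θ * Complex.I) = z := by
        refine ⟨z.arg, ?_⟩
        have := Complex.norm_mul_exp_arg_mul_I z
        rw [hz] at this; simpa using this
      refine ⟨((θ / (2 * Real.pi) : ℝ) : AddCircle (1 : ℝ)), ?_⟩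
      rw [fourier_coe_apply, ← hθ]
      congr 1
      have : (Real.pi : ℂ) ≠ 0 := by exact_mod_cast Real.pi_ne_zero
      push_cast
      field_simp
    have hn : ∀ n : ℤ, (fourier n t : ℂ) = z ^ n := by
      intro n
      rw [← ht, fourier_apply, fourier_apply]
      simp [AddCircle.toCircle_zsmul]
    have h3 : P t = ∑ n ∈ c.support, c n * z ^ n := by
      rw [← hc, Finsupp.sum]
      simp [ContinuousMap.coe_sum, hn]
    rw [← h3, ← ht]
    have h4 : dist (G t) (P t) ≤ dist G P := ContinuousMap.dist_apply_le_dist t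
    rw [dist_eq_norm] at h4
    exact h4.trans hd.le
  choose s c hsc using fun n : ℕ => hap (1 / (n + 1 : ℝ)) (by positivity)
  obtain ⟨C, hC⟩ := hh.bdd
  have hC0 : 0 ≤ C := by
    by_cases hne : Nonempty Ω
    · exact (norm_nonneg _).trans (hC hne.some)
    · exfalso
      rw [not_nonempty_iff] at hne
      have := measure_univ (μ := μ)
      rw [Set.eq_empty_of_isEmpty (Set.univ : Set Ω)] at this
      simp at this
  obtain ⟨D, hD⟩ : ∃ D : ℝ, ∀ z : ℂ, ‖z‖ = 1 → ‖g z‖ ≤ D := by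
    have : IsCompact (Metric.sphere (0 : ℂ) 1) := isCompact_sphere 0 1
    obtain ⟨D, hD⟩ := this.exists_bound_of_continuousOn g.continuous.continuousOn
    exact ⟨D, fun z hz => hD z (by simpa using hz)⟩
  refine Good.lim hΦ hf (fun n x => ∑ j ∈ s n, c n j * (h x * φ x ^ j)) (fun n => ?_)
    (C := C * (D + 1)) ?_ ?_
  · exact Good.sum hΦ hf (s n) (fun j x => c n j * (h x * φ x ^ j))
      fun j _ => hh.smul_phi hΦ (c n j) (hΦ.zpow hφ j)
  · intro n x
    have h1 : ∑ j ∈ s n, c n j * (h x * φ x ^ j) = h x * ∑ j ∈ s n, c n j * φ x ^ j := by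
      rw [Finset.mul_sum]; exact Finset.sum_congr rfl fun j _ => by ring
    rw [h1, norm_mul]
    have h2 := hsc n (φ x) (hΦ.uni _ hφ x)
    have h3 : ‖∑ j ∈ s n, c n j * φ x ^ j‖ ≤ D + 1 := by
      have h4 : ∑ j ∈ s n, c n j * φ x ^ j =
          g (φ x) - (g (φ x) - ∑ j ∈ s n, c n j * φ x ^ j) := by ring
      rw [h4]
      refine (norm_sub_le _ _).trans (add_le_add (hD _ (hΦ.uni _ hφ x)) (h2.trans ?_))
      rw [div_le_one (by positivity)]
      linarith [Nat.cast_nonneg (α := ℝ) n]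
    exact mul_le_mul (hC x) h3 (norm_nonneg _) hC0
  · intro x
    have h1 : ∀ n, ∑ j ∈ s n, c n j * (h x * φ x ^ j) = h x * ∑ j ∈ s n, c n j * φ x ^ j := by
      intro n
      rw [Finset.mul_sum]; exact Finset.sum_congr rfl fun j _ => by ring
    simp only [h1]
    refine Tendsto.const_mul _ ?_
    rw [tendsto_iff_norm_sub_tendsto_zero]
    refine squeeze_zero (fun n => norm_nonneg _) (fun n => ?_)
      tendsto_one_div_add_atTop_nhds_zero_nat
    rw [norm_sub_rev]
    exact hsc n (φ x) (hΦ.uni _ hφ x)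

/-- multiplication with the indicator function of `φ ∈ K`, `K` closed -/
theorem Good.closed {Φ : Set (Ω → ℂ)} (hΦ : UG Φ) {f h : Ω → ℂ} (hf : Integrable f μ)
    (hh : Good m μ Φ f h) {φ : Ω → ℂ} (hφ : φ ∈ Φ) {K : Set ℂ} (hK : IsClosed K) :
    Good m μ Φ f (fun x => (φ ⁻¹' K).indicator (fun _ => (1 : ℂ)) x * h x) := by
  obtain ⟨C, hC⟩ := hh.bdd
  -- continuous functions decreasing to the indicator function of `K`
  have hpos : ∀ n : ℕ, (0 : ℝ) < 1 / ((n : ℝ) + 1) := fun n => Nat.one_div_pos_of_nat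
  let g : ℕ → C(ℂ, ℂ) := fun n => ⟨fun z => (((thickenedIndicator (hpos n) K z : NNReal) : ℝ) : ℂ),
    Complex.continuous_ofReal.comp (NNReal.continuous_coe.comp
      (thickenedIndicator (hpos n) K).continuous)⟩
  have hg1 : ∀ n z, ‖g n z‖ ≤ 1 := by
    intro n z
    simp only [g, ContinuousMap.coe_mk, Complex.norm_real, Real.norm_eq_abs, NNReal.abs_eq]
    exact_mod_cast thickenedIndicator_le_one (hpos n) K z
  refine Good.lim hΦ hf (fun n x => h x * g n (φ x)) (fun n => hh.cont hΦ hf hφ (g n))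
    (C := C) ?_ ?_
  · intro n x
    rw [norm_mul]
    calc ‖h x‖ * ‖g n (φ x)‖ ≤ ‖h x‖ * 1 := mul_le_mul_of_nonneg_left (hg1 n _) (norm_nonneg _)
      _ ≤ C := by rw [mul_one]; exact hC x
  · intro x
    have h1 := (tendsto_pi_nhds.1 (thickenedIndicator_tendsto_indicator_closure hpos
      tendsto_one_div_add_atTop_nhds_zero_nat K)) (φ x)
    rw [hK.closure_eq] at h1
    have h2 : Tendsto (fun n => g n (φ x)) atTop
        (𝓝 ((φ ⁻¹' K).indicator (fun _ => (1 : ℂ)) x)) := by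
      have h3 := (Complex.continuous_ofReal.comp NNReal.continuous_coe).tendsto _ |>.comp h1
      have h5 : (φ ⁻¹' K).indicator (fun _ => (1 : ℂ)) x =
          (Complex.ofReal ∘ NNReal.toReal) (K.indicator (fun _ => 1) (φ x)) := by
        by_cases hx : φ x ∈ K
        · rw [Set.indicator_of_mem (by simpa using hx), Set.indicator_of_mem hx]; simp
        · rw [Set.indicator_of_notMem (by simpa using hx), Set.indicator_of_notMem hx]; simp
      rw [h5]
      exact h3
    have h4 := h2.const_mul (h x)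
    rwa [mul_comm (h x) ((φ ⁻¹' K).indicator (fun _ => (1 : ℂ)) x)] at h4

/-- the σ-algebra of all multipliers -/
@[reducible] def multAlg (m : MeasurableSpace Ω) {mΩ : MeasurableSpace Ω} (μ : Measure Ω)
    [IsProbabilityMeasure μ] {Φ : Set (Ω → ℂ)} (hΦ : UG Φ) {f : Ω → ℂ} (hf : Integrable f μ) :
    MeasurableSpace Ω where
  MeasurableSet' E := MeasurableSet[mΩ] E ∧ ∀ h, Good m μ Φ f h →
    Good m μ Φ f (fun x => E.indicator (fun _ => (1 : ℂ)) x * h x)
  measurableSet_empty := by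
    refine ⟨MeasurableSet.empty, fun h hh => ?_⟩
    have := hh.sub hΦ hf hh
    simpa using this
  measurableSet_compl E hE := by
    refine ⟨hE.1.compl, fun h hh => ?_⟩
    have := hh.sub hΦ hf (hE.2 h hh)
    convert this using 2 with x
    by_cases hx : x ∈ E <;> simp [hx]
  measurableSet_iUnion E hE := by
    refine ⟨MeasurableSet.iUnion fun n => (hE n).1, fun h hh => ?_⟩
    have hc : ∀ (A : Set Ω), (∀ k, Good m μ Φ f k →
        Good m μ Φ f (fun x => A.indicator (fun _ => (1 : ℂ)) x * k x)) →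
        ∀ k, Good m μ Φ f k → Good m μ Φ f (fun x => Aᶜ.indicator (fun _ => (1 : ℂ)) x * k x) := by
      intro A hA k hk
      have := hk.sub hΦ hf (hA k hk)
      convert this using 2 with x
      by_cases hx : x ∈ A <;> simp [hx]
    -- finite intersections of complements
    have hfin : ∀ n : ℕ, ∀ k, Good m μ Φ f k →
        Good m μ Φ f (fun x => (⋃ i ∈ Finset.range n, E i)ᶜ.indicator (fun _ => (1 : ℂ)) x * k x) := by
      intro n
      induction n with
      | zero =>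
        intro k hk
        simpa using hk
      | succ n ih =>
        intro k hk
        have h1 := hc (E n) (hE n).2 _ (ih k hk)
        have hs : (⋃ i ∈ Finset.range (n + 1), E i)ᶜ =
            (E n)ᶜ ∩ (⋃ i ∈ Finset.range n, E i)ᶜ := by
          rw [Finset.range_add_one, Finset.set_biUnion_insert, Set.compl_union]
        rw [hs]
        convert h1 using 2 with x
        by_cases h2 : x ∈ (E n)ᶜ
        · by_cases h3 : x ∈ (⋃ i ∈ Finset.range n, E i)ᶜ
          · rw [Set.indicator_of_mem (Set.mem_inter h2 h3), Set.indicator_of_mem h2,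
              Set.indicator_of_mem h3]
            ring
          · rw [Set.indicator_of_notMem (fun h => h3 h.2), Set.indicator_of_notMem h3]
            ring
        · rw [Set.indicator_of_notMem (fun h => h2 h.1), Set.indicator_of_notMem h2]
          ring
    obtain ⟨C, hC⟩ := hh.bdd
    have h5 : Good m μ Φ f
        (fun x => (⋃ i, E i)ᶜ.indicator (fun _ => (1 : ℂ)) x * h x) := by
      refine Good.lim hΦ hf _ (fun n => hfin n h hh) (C := C) ?_ ?_
      · intro n x
        rw [norm_mul]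
        have h6 : ‖(⋃ i ∈ Finset.range n, E i)ᶜ.indicator (fun _ => (1 : ℂ)) x‖ ≤ 1 := by
          by_cases hx : x ∈ (⋃ i ∈ Finset.range n, E i)ᶜ
          · rw [Set.indicator_of_mem hx]; simp
          · rw [Set.indicator_of_notMem hx]; simp
        calc _ ≤ 1 * ‖h x‖ := mul_le_mul_of_nonneg_right h6 (norm_nonneg _)
          _ ≤ C := by rw [one_mul]; exact hC x
      · intro x
        refine Tendsto.mul_const _ ?_
        refine tendsto_const_nhds.congr' ?_
        by_cases hx : x ∈ ⋃ i, E i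
        · obtain ⟨i, hi⟩ := Set.mem_iUnion.1 hx
          filter_upwards [eventually_gt_atTop i] with n hn
          rw [Set.indicator_of_notMem (by simpa using hx), Set.indicator_of_notMem]
          simp only [Set.mem_compl_iff, Set.mem_iUnion, Finset.mem_range, exists_prop, not_not]
          exact ⟨i, hn, hi⟩
        · filter_upwards with n
          rw [Set.indicator_of_mem (by simpa using hx), Set.indicator_of_mem]
          simp only [Set.mem_compl_iff, Set.mem_iUnion, Finset.mem_range, exists_prop, not_exists,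
            not_and]
          intro i _ hi
          exact hx (Set.mem_iUnion.2 ⟨i, hi⟩)
    have h6 := hh.sub hΦ hf h5
    convert h6 using 2 with x
    by_cases hx : x ∈ ⋃ i, E i
    · rw [Set.indicator_of_mem hx, Set.indicator_of_notMem (by simpa using hx)]; ring
    · rw [Set.indicator_of_notMem hx, Set.indicator_of_mem (by simpa using hx)]; ring

theorem multAlg_le {Φ : Set (Ω → ℂ)} (hΦ : UG Φ) {f : Ω → ℂ} (hf : Integrable f μ) :
    multAlg m μ hΦ hf ≤ mΩ := fun _ hE => hE.1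

theorem le_multAlg (hm : m ≤ mΩ) {Φ : Set (Ω → ℂ)} (hΦ : UG Φ) {f : Ω → ℂ}
    (hf : Integrable f μ) : m ≤ multAlg m μ hΦ hf := by
  intro E hE
  refine ⟨hm E hE, fun h hh => ⟨?_, ?_, ?_⟩⟩
  · exact (measurable_const.indicator (hm E hE)).mul hh.meas
  · obtain ⟨C, hC⟩ := hh.bdd
    refine ⟨C, fun x => ?_⟩
    rw [norm_mul]
    have h6 : ‖E.indicator (fun _ => (1 : ℂ)) x‖ ≤ 1 := by
      by_cases hx : x ∈ E
      · rw [Set.indicator_of_mem hx]; simp
      · rw [Set.indicator_of_notMem hx]; simp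
    calc _ ≤ 1 * ‖h x‖ := mul_le_mul_of_nonneg_right h6 (norm_nonneg _)
      _ ≤ C := by rw [one_mul]; exact hC x
  · intro φ hφ s hs
    have h1 := hh.orth φ hφ (s ∩ E) (hs.inter hE)
    rw [← integral_indicator (hm s hs)]
    rw [← integral_indicator (hm _ (hs.inter hE))] at h1
    rw [← h1]
    congr 1
    ext x
    by_cases h2 : x ∈ s <;> by_cases h3 : x ∈ E <;> simp [h2, h3]

theorem meas_multAlg {Φ : Set (Ω → ℂ)} (hΦ : UG Φ) {f : Ω → ℂ} (hf : Integrable f μ)
    {φ : Ω → ℂ} (hφ : φ ∈ Φ) : Measurable[multAlg m μ hΦ hf] φ := by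
  refine @measurable_of_isClosed ℂ Ω _ _ _ (multAlg m μ hΦ hf) φ fun K hK => ?_
  exact ⟨hΦ.meas _ hφ hK.measurableSet, fun h hh => hh.closed hΦ hf hφ hK⟩

theorem null_multAlg {Φ : Set (Ω → ℂ)} (hΦ : UG Φ) {f : Ω → ℂ} (hf : Integrable f μ)
    {E : Set Ω} (hE : MeasurableSet E) (h0 : μ E = 0) : MeasurableSet[multAlg m μ hΦ hf] E := by
  refine ⟨hE, fun h hh => ⟨?_, ?_, ?_⟩⟩
  · exact (measurable_const.indicator hE).mul hh.meas
  · obtain ⟨C, hC⟩ := hh.bdd
    refine ⟨C, fun x => ?_⟩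
    rw [norm_mul]
    have h6 : ‖E.indicator (fun _ => (1 : ℂ)) x‖ ≤ 1 := by
      by_cases hx : x ∈ E
      · rw [Set.indicator_of_mem hx]; simp
      · rw [Set.indicator_of_notMem hx]; simp
    calc _ ≤ 1 * ‖h x‖ := mul_le_mul_of_nonneg_right h6 (norm_nonneg _)
      _ ≤ C := by rw [one_mul]; exact hC x
  · intro φ hφ s hs
    have h1 : (fun x => f x * (E.indicator (fun _ => (1 : ℂ)) x * h x) * φ x) =ᵐ[μ.restrict s]
        fun _ => 0 := by
      have h2 : ∀ᵐ x ∂μ, x ∉ E := measure_eq_zero_iff_ae_notMem.1 h0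
      filter_upwards [ae_restrict_of_ae h2] with x hx
      simp [hx]
    rw [integral_congr_ae h1]; simp

/-- `M` is contained in the σ-algebra generated by `m`, `Φ` and the null sets -/
def Gen {Ω : Type*} (m M : MeasurableSpace Ω) {mΩ : MeasurableSpace Ω} (μ : Measure Ω)
    (Φ : Set (Ω → ℂ)) : Prop :=
  ∀ 𝓜 : MeasurableSpace Ω, 𝓜 ≤ mΩ → m ≤ 𝓜 → (∀ φ ∈ Φ, Measurable[𝓜] φ) →
    (∀ s, MeasurableSet[mΩ] s → μ s = 0 → MeasurableSet[𝓜] s) → M ≤ 𝓜

/-- Lemma L1: an integrable function which is measurable with respect to the σ-algebra generated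
by `m`, `Φ` and the null sets vanishes if it is orthogonal to all `φ a`, `φ ∈ Φ`, `a ∈ m`. -/
theorem L1 {Ω : Type*} {m M mΩ : MeasurableSpace Ω} {μ : Measure Ω} [IsProbabilityMeasure μ]
    (hm : m ≤ mΩ) {Φ : Set (Ω → ℂ)} (hΦ : UG Φ)
    (hM : Gen m M μ Φ)
    {f : Ω → ℂ} (hf : Integrable f μ) (hfm : AEStronglyMeasurable[M] f μ)
    (h : ∀ φ ∈ Φ, ∀ s, MeasurableSet[m] s → ∫ x in s, f x * φ x ∂μ = 0) : f =ᵐ[μ] 0 := by
  have h1 : M ≤ multAlg m μ hΦ hf := hM _ (multAlg_le hΦ hf) (le_multAlg hm hΦ hf)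
    (fun φ hφ => meas_multAlg hΦ hf hφ) (fun s hs h0 => null_multAlg (m := m) (μ := μ) hΦ hf hs h0)
  have hMΩ : M ≤ mΩ := h1.trans (multAlg_le hΦ hf)
  have hgood : Good m μ Φ f (fun _ => 1) :=
    ⟨measurable_const, ⟨1, by simp⟩, by simpa using h⟩
  have h2 : ∀ s, MeasurableSet[M] s → ∫ x in s, f x ∂μ = 0 := by
    intro s hs
    have h3 := ((h1 s hs).2 _ hgood).orth _ hΦ.one Set.univ MeasurableSet.univ
    rw [← integral_indicator (hMΩ s hs)]
    simp only [Measure.restrict_univ, mul_one] at h3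
    rw [← h3]
    congr 1
    ext x
    by_cases hx : x ∈ s <;> simp [hx]
  have h4 : (fun _ => (0 : ℂ)) =ᵐ[μ] μ[f | M] := by
    refine ae_eq_condExp_of_forall_setIntegral_eq hMΩ hf (fun s _ _ => by simp) ?_
      aestronglyMeasurable_const
    intro s hs _
    rw [h2 s hs]; simp
  have h5 : μ[f | M] =ᵐ[μ] f := condExp_of_aestronglyMeasurable' hMΩ hfm hf
  exact h5.symm.trans h4.symm

end

end Pool.Agent.Helper13.TWR
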