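import Pool.Agent.Helper13.TWR.L1

/-! Lemmas L2, CT (connectedness trick), GL (gluing). -/

set_option linter.unusedSectionVars false

open MeasureTheory Filter
open scoped ComplexConjugate ENNReal Topology

namespace Pool.Agent.Helper13.TWR

section
variable {Ω : Type*} {m M mΩ : MeasurableSpace Ω} {μ : Measure Ω} [IsProbabilityMeasure μ]

/-- `ψ` is unimodular -/
def Un {Ω : Type*} {_ : MeasurableSpace Ω} (μ : Measure Ω) (ψ : Ω → ℂ) : Prop :=
  AEStronglyMeasurable ψ μ ∧ ∀ᵐ x ∂μ, ‖ψ x‖ = 1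

/-- the increments of `ψ` under `T` lie in `m` -/
def Inc {Ω : Type*} (m : MeasurableSpace Ω) {_ : MeasurableSpace Ω} (μ : Measure Ω) (T : Ω → Ω)
    (ψ : Ω → ℂ) : Prop :=
  ∃ b : Ω → ℂ, AEStronglyMeasurable[m] b μ ∧ ∀ᵐ x ∂μ, ψ (T x) = b x * ψ x

theorem mul_conj_one {z : ℂ} (h : ‖z‖ = 1) : z * conj z = 1 := by
  rw [Complex.mul_conj, Complex.normSq_eq_norm_sq, h]; norm_num

theorem Un.conj {ψ : Ω → ℂ} (h : Un μ ψ) : Un μ (fun x => conj (ψ x)) :=
  ⟨Complex.continuous_conj.comp_aestronglyMeasurable h.1, by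
    filter_upwards [h.2] with x hx; rwa [RCLike.norm_conj]⟩

theorem Un.mul {ψ φ : Ω → ℂ} (h : Un μ ψ) (h' : Un μ φ) : Un μ (fun x => ψ x * φ x) :=
  ⟨h.1.mul h'.1, by
    filter_upwards [h.2, h'.2] with x hx hx'; rw [norm_mul, hx, hx', mul_one]⟩

theorem Un.int {ψ : Ω → ℂ} (h : Un μ ψ) : Integrable ψ μ := by
  refine Integrable.mono' (integrable_const (1 : ℝ)) h.1 ?_
  filter_upwards [h.2] with x hx; exact hx.le

theorem UG.un {Φ : Set (Ω → ℂ)} (h : UG Φ) {φ : Ω → ℂ} (hφ : φ ∈ Φ) : Un μ φ :=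
  ⟨(h.meas _ hφ).aestronglyMeasurable, ae_of_all _ (h.uni _ hφ)⟩

theorem Inc.conj {T : Ω → Ω} {ψ : Ω → ℂ} (h : Inc m μ T ψ) :
    Inc m μ T (fun x => conj (ψ x)) := by
  obtain ⟨b, hb, h⟩ := h
  refine ⟨fun x => conj (b x), Complex.continuous_conj.comp_aestronglyMeasurable hb, ?_⟩
  filter_upwards [h] with x hx
  rw [hx, map_mul]

theorem Inc.mul {T : Ω → Ω} {ψ φ : Ω → ℂ} (h : Inc m μ T ψ) (h' : Inc m μ T φ) :
    Inc m μ T (fun x => ψ x * φ x) := by
  obtain ⟨b, hb, h⟩ := h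
  obtain ⟨b', hb', h'⟩ := h'
  refine ⟨fun x => b x * b' x, hb.mul hb', ?_⟩
  filter_upwards [h, h'] with x hx hx'
  rw [hx, hx']; ring

theorem L0' (hm : m ≤ mΩ) {T : Ω → Ω} (hT : Ergodic T μ)
    (hTm : MeasurableSpace.comap T m = m) {ψ : Ω → ℂ} (hψ : Un μ ψ) (hi : Inc m μ T ψ) :
    μ[ψ | m] =ᵐ[μ] 0 ∨ AEStronglyMeasurable[m] ψ μ := by
  obtain ⟨b, hb, h⟩ := hi
  exact L0 hm hT hTm hψ.1 hψ.2 hb h

/-- Lemma L2. -/
theorem L2 (hm : m ≤ mΩ) {T : Ω → Ω} (hT : Ergodic T μ)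
    (hTm : MeasurableSpace.comap T m = m) {Φ : Set (Ω → ℂ)} (hΦ : UG Φ) (hM : Gen m M μ Φ)
    (hΦi : ∀ φ ∈ Φ, Inc m μ T φ) {ψ : Ω → ℂ} (hψ : Un μ ψ) (hψM : AEStronglyMeasurable[M] ψ μ)
    (hψi : Inc m μ T ψ) :
    ∃ φ ∈ Φ, ∃ u : Ω → ℂ, AEStronglyMeasurable[m] u μ ∧ (∀ᵐ x ∂μ, ‖u x‖ = 1) ∧
      ∀ᵐ x ∂μ, ψ x = φ x * u x := by
  by_contra hcon
  have h1 : ∀ φ ∈ Φ, μ[fun x => ψ x * conj (φ x) | m] =ᵐ[μ] 0 := by
    intro φ hφ
    rcases L0' hm hT hTm (hψ.mul (hΦ.un hφ).conj) (hψi.mul (hΦi φ hφ).conj) with h | h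
    · exact h
    · exfalso
      refine hcon ⟨φ, hφ, _, h, (hψ.mul (hΦ.un hφ).conj).2, ?_⟩
      filter_upwards with x
      have := mul_conj_one (hΦ.uni _ hφ x)
      linear_combination (-ψ x) * this
  have h2 : ψ =ᵐ[μ] 0 := by
    refine L1 hm hΦ hM hψ.int hψM fun φ hφ s hs => ?_
    have h3 := h1 _ (hΦ.inv _ hφ)
    simp only [Complex.conj_conj] at h3
    have hi : Integrable (fun x => ψ x * φ x) μ := (hψ.mul (hΦ.un hφ)).int
    rw [← setIntegral_condExp hm hi hs, setIntegral_congr_ae (g := fun _ => 0) (hm s hs)]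
    · simp
    · filter_upwards [h3] with x hx _
      simpa using hx
  obtain ⟨x, h4, h5⟩ := (hψ.2.and h2).exists
  rw [h5] at h4; simp at h4

/-- an action of a group by measure preserving maps which commute with `T` (as maps of functions) -/
structure Act {Ω : Type*} {mΩ : MeasurableSpace Ω} (μ : Measure Ω) (T : Ω → Ω)
    {G : Type*} [AddCommGroup G] (V : G → Ω → Ω) : Prop where
  mp : ∀ t, MeasurePreserving (V t) μ μ
  zero : ∀ x, V 0 x = x
  add : ∀ s t x, V (s + t) x = V s (V t x)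
  comm : ∀ t, ∀ F : Ω → ℂ, AEStronglyMeasurable F μ → ∀ᵐ x ∂μ, F (V t (T x)) = F (T (V t x))

theorem aesm_comp {V : Ω → Ω} (hV : MeasurePreserving V μ μ)
    (hVm : MeasurableSpace.comap V m = m) {f : Ω → ℂ} (hf : AEStronglyMeasurable[m] f μ) :
    AEStronglyMeasurable[m] (fun x => f (V x)) μ := by
  refine ⟨fun x => hf.mk f (V x), hf.stronglyMeasurable_mk.comp_measurable (meas_of_comap hVm), ?_⟩
  exact hV.quasiMeasurePreserving.ae hf.ae_eq_mk

/-- Lemma CT: the connectedness trick. -/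
theorem CT (hm : m ≤ mΩ) {T : Ω → Ω} (hT : Ergodic T μ)
    (hTm : MeasurableSpace.comap T m = m) {G : Type*} [AddCommGroup G] [TopologicalSpace G]
    [IsTopologicalAddGroup G] [PreconnectedSpace G] {V : G → Ω → Ω} (hV : Act μ T V)
    (hVm : ∀ t, MeasurableSpace.comap (V t) m = m) {ψ : Ω → ℂ} (hψ : Un μ ψ)
    (hi : ∀ t, Inc m μ T (fun x => ψ (V t x) * conj (ψ x)))
    (hc : Tendsto (fun t => ∫ x, ψ (V t x) * conj (ψ x) ∂μ) (𝓝 0) (𝓝 1)) (t : G) :
    AEStronglyMeasurable[m] (fun x => ψ (V t x) * conj (ψ x)) μ := by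
  have hVψ : ∀ t, Un μ (fun x => ψ (V t x)) := fun t =>
    ⟨hψ.1.comp_measurePreserving (hV.mp t), (hV.mp t).quasiMeasurePreserving.ae hψ.2⟩
  have hχ : ∀ t, Un μ (fun x => ψ (V t x) * conj (ψ x)) := fun t => (hVψ t).mul hψ.conj
  let H : AddSubgroup G :=
    { carrier := {t | AEStronglyMeasurable[m] (fun x => ψ (V t x) * conj (ψ x)) μ}
      zero_mem' := by
        refine AEStronglyMeasurable.congr (f := fun _ => (1 : ℂ)) aestronglyMeasurable_const ?_
        filter_upwards [hψ.2] with x hx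
        simp only [hV.zero]
        exact (mul_conj_one hx).symm
      add_mem' := by
        intro s t hs ht
        simp only [Set.mem_ofPred_eq] at hs ht ⊢
        have h1 := aesm_comp (hV.mp t) (hVm t) hs
        refine (h1.mul ht).congr ?_
        filter_upwards [(hVψ t).2] with x hx
        have h2 := mul_conj_one hx
        simp only [Pi.mul_apply, hV.add]
        linear_combination (ψ (V s (V t x)) * conj (ψ x)) * h2
      neg_mem' := by
        intro t ht
        simp only [Set.mem_ofPred_eq] at ht ⊢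
        have h1 := aesm_comp (hV.mp (-t)) (hVm (-t)) ht
        refine (Complex.continuous_conj.comp_aestronglyMeasurable h1).congr ?_
        filter_upwards with x
        have h2 : V t (V (-t) x) = x := by rw [← hV.add, add_neg_cancel, hV.zero]
        simp only [h2, map_mul, Complex.conj_conj]
        ring }
  have hev : ∀ᶠ t in 𝓝 (0 : G), t ∈ H := by
    have h1 : ∀ᶠ t in 𝓝 (0 : G), ∫ x, ψ (V t x) * conj (ψ x) ∂μ ≠ 0 :=
      hc.eventually_ne one_ne_zero
    filter_upwards [h1] with t ht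
    rcases L0' hm hT hTm (hχ t) (hi t) with h | h
    · exfalso
      apply ht
      rw [← integral_condExp hm, integral_congr_ae h]; simp
    · exact h
  have hopen : IsOpen (H : Set G) := by
    refine AddSubgroup.isOpen_of_mem_nhds H (g := 0) hev
  have huniv : (H : Set G) = Set.univ :=
    IsClopen.eq_univ ⟨H.isClosed_of_isOpen hopen, hopen⟩ ⟨0, H.zero_mem⟩
  have : t ∈ (H : Set G) := by rw [huniv]; trivial
  exact this

/-- Lemma GL (gluing). -/
theorem glue (hm : m ≤ mΩ) {G : Type*} {V : G → Ω → Ω}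
    (hV : ∀ t, MeasurePreserving (V t) μ μ)
    (hVm : ∀ t, MeasurableSpace.comap (V t) m = m) {Φ : Set (Ω → ℂ)} (hΦ : UG Φ)
    (hΦc : Φ.Countable) (hM : Gen m M μ Φ)
    (hΦV : ∀ φ ∈ Φ, ∀ t, ∀ᵐ x ∂μ, φ (V t x) = φ x) {ψ : Ω → ℂ} (hψ : Un μ ψ)
    (hψM : AEStronglyMeasurable[M] ψ μ)
    (hψV : ∀ t, AEStronglyMeasurable[m] (fun x => ψ (V t x) * conj (ψ x)) μ) :
    ∃ w : Ω → ℂ, StronglyMeasurable[m] w ∧ (∀ x, ‖w x‖ = 1) ∧
      ∀ t, ∀ᵐ x ∂μ, ψ (V t x) * conj (w (V t x)) = ψ x * conj (w x) := by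
  classical
  obtain ⟨φ, hφ⟩ := hΦc.exists_eq_range ⟨_, hΦ.one⟩
  have hφm : ∀ n, φ n ∈ Φ := fun n => by rw [hφ]; exact ⟨n, rfl⟩
  set g : ℕ → Ω → ℂ := fun n => μ[fun x => ψ x * conj (φ n x) | m] with hg
  have hgm : ∀ n, StronglyMeasurable[m] (g n) := fun n => stronglyMeasurable_condExp
  have hψφ : ∀ n, Un μ (fun x => ψ x * conj (φ n x)) := fun n => hψ.mul (hΦ.un (hφm n)).conj
  have hVψ : ∀ t, Un μ (fun x => ψ (V t x)) := fun t =>
    ⟨hψ.1.comp_measurePreserving (hV t), (hV t).quasiMeasurePreserving.ae hψ.2⟩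
  -- `g` transforms like `ψ`
  have hgV : ∀ t n, ∀ᵐ x ∂μ, g n (V t x) = (ψ (V t x) * conj (ψ x)) * g n x := by
    intro t n
    have h1 := condExp_comp hm (hV t) (hVm t) (hψφ n).int
    have h2 : μ[(fun x => ψ x * conj (φ n x)) ∘ V t | m] =ᵐ[μ]
        μ[fun x => (ψ (V t x) * conj (ψ x)) * (ψ x * conj (φ n x)) | m] := by
      refine condExp_congr_ae ?_
      filter_upwards [hΦV _ (hφm n) t, hψ.2] with x h3 h4
      have h5 := mul_conj_one h4
      simp only [Function.comp, h3]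
      linear_combination (-ψ (V t x) * conj (φ n x)) * h5
    have h3 := ce_mul (hψV t) (g := fun x => ψ x * conj (φ n x))
      (((hVψ t).mul hψ.conj).mul (hψφ n)).int (hψφ n).int
    filter_upwards [h1, h2, h3] with x e1 e2 e3
    rw [e2, e3] at e1
    simpa using e1.symm
  -- almost everywhere some `g n` does not vanish
  have hae : ∀ᵐ x ∂μ, ∃ n, g n x ≠ 0 := by
    set R : Set Ω := {x | ∀ n, g n x = 0} with hR
    have hRm : MeasurableSet[m] R := by
      have : R = ⋂ n, (g n) ⁻¹' {0} := by ext x; simp [hR]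
      rw [this]
      exact MeasurableSet.iInter fun n => (hgm n).measurable (measurableSet_singleton 0)
    have hRm' : MeasurableSet R := hm _ hRm
    have hf : Integrable (R.indicator ψ) μ := hψ.int.indicator hRm'
    have hMm : m ≤ mΩ := hm
    have h1 : R.indicator ψ =ᵐ[μ] 0 := by
      -- enlarge `M` to contain `m`
      have hM' : Gen m (m ⊔ M) μ Φ := fun 𝓜 a b c d => sup_le b (hM 𝓜 a b c d)
      have hψM' : AEStronglyMeasurable[m ⊔ M] (R.indicator ψ) μ := by
        refine ⟨R.indicator (hψM.mk ψ), (hψM.stronglyMeasurable_mk.mono le_sup_right).indicator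
          ((le_sup_left : m ≤ m ⊔ M) _ hRm), ?_⟩
        filter_upwards [hψM.ae_eq_mk] with x hx
        by_cases hxR : x ∈ R <;> simp [hxR, hx]
      refine L1 hm hΦ hM' hf hψM' fun φ' hφ' s hs => ?_
      · have h2 := hΦ.inv _ hφ'
        rw [hφ] at h2
        obtain ⟨n, hn⟩ := h2
        have hn' : ∀ x, conj (φ n x) = φ' x := fun x => by rw [hn]; simp
        have h3 : ∀ x, R.indicator ψ x * φ' x =
            R.indicator (fun x => ψ x * conj (φ n x)) x := by
          intro x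
          by_cases hx : x ∈ R <;> simp [hx, hn']
        simp only [h3]
        rw [setIntegral_indicator hRm', ← setIntegral_condExp hm (hψφ n).int (hs.inter hRm),
          setIntegral_congr_fun (g := fun _ => 0) (hm _ (hs.inter hRm))]
        · simp
        · intro x hx
          exact hx.2 n
    filter_upwards [h1, hψ.2] with x h2 h3
    by_contra h4
    push Not at h4
    have h5 : x ∈ R := h4
    rw [Set.indicator_of_mem h5] at h2
    rw [h2] at h3; simp at h3
  have hex : ∀ x, ∃ n, g n x ≠ 0 ∨ ∀ k, g k x = 0 := by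
    intro x
    by_cases h : ∀ k, g k x = 0
    · exact ⟨0, Or.inr h⟩
    · push Not at h
      obtain ⟨n, hn⟩ := h
      exact ⟨n, Or.inl hn⟩
  let f : ℕ → Ω → ℂ := fun n x => if g n x = 0 then 1 else g n x / (‖g n x‖ : ℂ)
  have hfm : ∀ n, Measurable[m] (f n) := by
    intro n
    refine Measurable.ite ?_ measurable_const ?_
    · exact (hgm n).measurable (measurableSet_singleton 0)
    · exact (hgm n).measurable.div ((Complex.continuous_ofReal.comp continuous_norm).measurable.comp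
        (hgm n).measurable)
  let w : Ω → ℂ := fun x => f (Nat.find (hex x)) x
  have hw : Measurable[m] w := by
    refine @Measurable.find Ω ℂ _ m f (fun n x => g n x ≠ 0 ∨ ∀ k, g k x = 0) _ hfm
      (fun n => ?_) hex
    have h0 : ∀ k, MeasurableSet[m] {x | g k x = 0} := fun k =>
      (hgm k).measurable (measurableSet_singleton 0)
    have : {x | g n x ≠ 0 ∨ ∀ k, g k x = 0} = {x | g n x = 0}ᶜ ∪ ⋂ k, {x | g k x = 0} := by
      ext x; simp
    rw [this]
    exact (h0 n).compl.union (MeasurableSet.iInter h0)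
  refine ⟨w, hw.stronglyMeasurable, fun x => ?_, fun t => ?_⟩
  · simp only [w, f]
    split_ifs with h
    · simp
    · rw [norm_div, Complex.norm_real, norm_norm]
      exact div_self (norm_ne_zero_iff.2 h)
  · have h1 : ∀ᵐ x ∂μ, ∀ n, g n (V t x) = (ψ (V t x) * conj (ψ x)) * g n x :=
      ae_all_iff.2 fun n => hgV t n
    filter_upwards [h1, hae, hψ.2, (hVψ t).2] with x h2 h3 h4 h5
    have hχ : ‖ψ (V t x) * conj (ψ x)‖ = 1 := by
      rw [norm_mul, RCLike.norm_conj, h4, h5, mul_one]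
    have hχ0 : ψ (V t x) * conj (ψ x) ≠ 0 := by
      intro h; rw [h] at hχ; simp at hχ
    have hz : ∀ n, g n (V t x) = 0 ↔ g n x = 0 := by
      intro n
      rw [h2 n, mul_eq_zero, or_iff_right hχ0]
    have hfind : Nat.find (hex (V t x)) = Nat.find (hex x) := by
      refine Nat.find_congr' fun {n} => ?_
      rw [ne_eq, ne_eq, hz n]
      simp only [hz]
    have hne : g (Nat.find (hex x)) x ≠ 0 := by
      rcases Nat.find_spec (hex x) with h | h
      · exact h
      · obtain ⟨n, hn⟩ := h3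
        exact absurd (h n) hn
    have hwx : w x = g (Nat.find (hex x)) x / (‖g (Nat.find (hex x)) x‖ : ℂ) := by
      simp only [w, f, if_neg hne]
    have hwV : w (V t x) = (ψ (V t x) * conj (ψ x)) * w x := by
      have hne' : g (Nat.find (hex x)) (V t x) ≠ 0 := fun h => hne ((hz _).1 h)
      rw [hwx]
      simp only [w, f, hfind, if_neg hne']
      rw [h2, norm_mul, hχ, one_mul]; ring
    have h6 := mul_conj_one h4
    have h7 := mul_conj_one h5
    rw [hwV]
    simp only [map_mul, Complex.conj_conj]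
    linear_combination (ψ x * conj (w x)) * h7
end

end Pool.Agent.Helper13.TWR
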