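import Pool.Agent.Helper98.TW.Basic

/-! Rows LZ, LT of the sheet TW. -/

set_option linter.unusedSectionVars false

open MeasureTheory Filter Topology Finset
open scoped ComplexConjugate

namespace Pool.Agent.Helper13.TWR

open Pool.Agent.Helper98.TW

section
variable {Ω : Type} [m0 : MeasurableSpace Ω] {μ : Measure Ω} [IsProbabilityMeasure μ]

/-- pull-out property, complex valued -/
theorem pull13 {𝒜 : SA Ω} {f g : Ω → ℂ} (hf : AM μ 𝒜 f)
    (hfg : Integrable (fun x => f x * g x) μ) (hg : Integrable g μ) :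
    μ[fun x => f x * g x|𝒜] =ᵐ[μ] fun x => f x * (μ[g|𝒜]) x :=
  condExp_bilin_of_aestronglyMeasurable_left (ContinuousLinearMap.mul ℝ ℂ) hf hfg hg

theorem uf_int {f : Ω → ℂ} (h : UF μ f) : Integrable f μ := by
  refine Integrable.mono' (integrable_const (1 : ℝ)) h.1.aestronglyMeasurable ?_
  filter_upwards [h.2] with x hx; exact hx.le

theorem am_condExp {𝒜 : SA Ω} {f : Ω → ℂ} : AM μ 𝒜 (μ[f|𝒜]) :=
  stronglyMeasurable_condExp.aestronglyMeasurable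

/-- a multiplicative form of the increments -/
theorem inc_eq {𝒜 : SA Ω} {R R' : Ω → Ω} (hR : Sys μ R R') {ψ : Ω → ℂ} (hψ : UF μ ψ)
    (hi : Inc μ 𝒜 R ψ) : ∃ b : Ω → ℂ, AM μ 𝒜 b ∧ (∀ᵐ x ∂μ, ‖b x‖ = 1) ∧
      ∀ᵐ x ∂μ, ψ (R x) = b x * ψ x := by
  refine ⟨_, hi, ?_, ?_⟩
  · filter_upwards [hψ.2, ae_comp hR.mp hψ.2] with x h1 h2
    rw [norm_mul, RCLike.norm_conj, h1, h2, mul_one]
  · filter_upwards [hψ.conj_mul] with x h1
    rw [mul_assoc, h1, mul_one]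

theorem lz (hcec : ST_CEC) {R R' : Ω → Ω} {𝒜 : SA Ω} {ψ : Ω → ℂ} (hS : Sys μ R R')
    (hE : Ergodic R μ) (hI : IA μ 𝒜 R R') (hψ : UF μ ψ) (hi : Inc μ 𝒜 R ψ) :
    μ[ψ|𝒜] =ᵐ[μ] 0 ∨ AM μ 𝒜 ψ := by
  obtain ⟨b, hb, hb1, hinc⟩ := inc_eq hS hψ hi
  have hψi : Integrable ψ μ := uf_int hψ
  have hψTi : Integrable (fun x => ψ (R x)) μ := hS.mp.integrable_comp_of_integrable hψi
  set E : Ω → ℂ := μ[ψ|𝒜] with hEd
  have hEi : Integrable E μ := integrable_condExp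
  have hEm : AM μ 𝒜 E := am_condExp
  have hET : ∀ᵐ x ∂μ, E (R x) = b x * E x := by
    have h1 := hcec Ω μ R R' 𝒜 ψ hS hI hψi
    have h2 : μ[fun x => ψ (R x)|𝒜] =ᵐ[μ] μ[fun x => b x * ψ x|𝒜] := condExp_congr_ae hinc
    have h3 : μ[fun x => b x * ψ x|𝒜] =ᵐ[μ] fun x => b x * E x :=
      pull13 hb (hψTi.congr hinc) hψi
    filter_upwards [h1, h2, h3] with x e1 e2 e3
    exact e1.symm.trans (e2.trans e3)
  have hnorm : (fun x => ‖E x‖) ∘ R =ᵐ[μ] fun x => ‖E x‖ := by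
    filter_upwards [hET, hb1] with x e1 e2
    simp [e1, e2]
  obtain ⟨c, hc⟩ := hE.ae_eq_const_of_ae_eq_comp_ae
    (g := fun x => ‖E x‖) hEi.norm.aestronglyMeasurable hnorm
  have hc' : ∀ᵐ x ∂μ, ‖E x‖ = c := by filter_upwards [hc] with x hx; simpa using hx
  by_cases hc0 : c = 0
  · left
    filter_upwards [hc'] with x hx
    rw [hc0] at hx
    simpa using hx
  right
  have hinv : (fun x => ψ x * conj (E x)) ∘ R =ᵐ[μ] fun x => ψ x * conj (E x) := by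
    filter_upwards [hinc, hET, hb1] with x e1 e2 e3
    simp only [Function.comp, e1, e2, map_mul]
    have : b x * conj (b x) = 1 := by
      rw [Complex.mul_conj, Complex.normSq_eq_norm_sq, e3]; norm_num
    linear_combination (ψ x * conj (E x)) * this
  obtain ⟨k, hk⟩ := hE.ae_eq_const_of_ae_eq_comp_ae
    (g := fun x => ψ x * conj (E x))
    (hψ.1.aestronglyMeasurable.mul
      (Complex.continuous_conj.comp_aestronglyMeasurable hEi.aestronglyMeasurable)) hinv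
  have hk' : ∀ᵐ x ∂μ, ψ x * conj (E x) = k := by filter_upwards [hk] with x hx; simpa using hx
  have h5 : (fun x => (k / (c : ℂ) ^ 2) * E x) =ᵐ[μ] ψ := by
    filter_upwards [hk', hc'] with x e1 e2
    have h6 : conj (E x) * E x = (c : ℂ) ^ 2 := by
      rw [mul_comm, Complex.mul_conj, Complex.normSq_eq_norm_sq, e2]; push_cast; ring
    have hcc : (c : ℂ) ^ 2 ≠ 0 := pow_ne_zero 2 (by exact_mod_cast hc0)
    have h7 : k * E x = ψ x * (c : ℂ) ^ 2 := by rw [← e1, ← h6]; ring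
    calc k / (c : ℂ) ^ 2 * E x = (k * E x) / (c : ℂ) ^ 2 := by ring
      _ = ψ x := by rw [h7]; exact mul_div_cancel_right₀ _ hcc
  exact am_congr (am_mul (am_const _) hEm) h5

end

theorem st_LZ (h1 : ST_CEC) : ST_LZ := by
  intro Ω m0 μ _ R R' 𝒜 ψ hS hE hI hψ hi
  exact lz h1 hS hE hI hψ hi

theorem st_LT (h1 : ST_LZ) (h2 : ST_DNS) : ST_LT := by
  intro Ω m0 μ _ R R' 𝒜 Φ ψ hS hE hI hΦ hΦi hψ hψM hψi
  by_contra hcon
  push Not at hcon
  have h3 : ∀ φ ∈ Φ, μ[fun x => ψ x * conj (φ x)|𝒜] =ᵐ[μ] 0 := by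
    intro φ hφ
    rcases h1 Ω μ R R' 𝒜 (fun x => ψ x * conj (φ x)) hS hE hI (hψ.mul (hΦ.uf _ hφ).conj)
      (hψi.mul (hΦi φ hφ).conj) with h | h
    · exact h
    · exact absurd h (hcon φ hφ)
  have h4 := h2 Ω μ 𝒜 Φ ψ hI.1 hΦ (uf_int hψ) hψM h3
  obtain ⟨x, h5, h6⟩ := (hψ.2.and h4).exists
  rw [h6] at h5; simp at h5

end Pool.Agent.Helper13.TWR
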